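import Pool.Agent.Y249.AC.Int
import Pool.Agent.Y249.AC.Cmp
import Pool.Agent.Y249.AC.Src
import Pool.Agent.Y249.AC.SrcH

set_option autoImplicit false
set_option maxHeartbeats 1000000

/-!
# MP_ac5134: the Kakeya inequality in tube form for all translates, in every dimension `n ≥ 3`

Work in `ℝ^n = ℝ^d × ℝ`, `n = d + 1 ≥ 3`, with its Euclidean norm (`Space d`), and let `P` be the
paraboloid `{(ω, |ω|²)}`, `|ω| ≤ 1`.  The box dual to the cap at `ω` is `box N (nor ω) f 0`: its long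
side `N²` is in the direction of the unit normal `nor ω = (-2ω, 1)/√(1+4|ω|²)` and its other sides `N`
are in the directions of an arbitrary orthonormal frame `f` of the orthogonal complement.

For ALL translates the conjectured comparison with the centred family holds without any loss for every
`p` in `[1 + c/(n-1), ∞]`, and with the loss `N ^ lossExponent d c p ≤ N ^ ((n-1)/n · (1 - 1/c))` for
every `p` in `[1, ∞]`, whenever `c > 2(n-1)/n`, or `n ≥ 10`, `c > 1` and for some `x ∈ [0, 1]`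
`(n-1)(c³ - 4c + 2) + x c (3c - 1 - c²) > 0` and
`(n-1)(c² - 1) + x (3c - 1 - c²) > 4c² + 5c - 4 + x (3c² + 1)`.  With `x = 0` these are all `c` above
the root `α = 1.67513...` of `x³ - 4x + 2`; with `x = 1` (allowed for `n ≥ 15`) all `c` above
`1.642` (`n = 15`), and so on: every `n ≥ 10` gets slopes strictly below `α`.
-/

open MeasureTheory Set ENNReal

namespace Pool.Agent.Results.MP_ac5134_an.HybridRange

open Pool.Agent.H810R3.Tub

/-- The caps have centres `ω i` in the closed unit ball, `σ/N`-separated and at least `κ N^d` in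
number, and `f i` is an orthonormal frame of the orthogonal complement of the normal at `ω i`. -/
def Caps {d : ℕ} {ι : Type} [Fintype ι] (σ κ N : ℝ) (ω : ι → Vec d) (f : ι → Fin d → Space d) : Prop :=
  (∀ i, ‖ω i‖ ≤ 1) ∧ (∀ i j, i ≠ j → σ / N ≤ ‖ω i - ω j‖) ∧ κ * N ^ d ≤ (Fintype.card ι : ℝ) ∧
    ∀ i, Orthonormal ℝ (Fin.cons (nor (ω i)) (f i) : Fin (d + 1) → Space d)

/-- The sum of the indicators of the boxes of the caps with centres `a i`. -/
noncomputable def boxSum {d : ℕ} {ι : Type} [Fintype ι] (N : ℝ) (ω : ι → Vec d)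
    (f : ι → Fin d → Space d) (a : ι → Space d) (y : Space d) : ℝ :=
  ∑ i, (box N (nor (ω i)) (f i) (a i)).indicator (fun _ => (1 : ℝ)) y

/-- The inequality of Q1 with the constant `C` at the exponent `p`, for the boxes with centres `a i`. -/
def Ineq {d : ℕ} {ι : Type} [Fintype ι] (C N : ℝ) (p : ℝ≥0∞) (ω : ι → Vec d)
    (f : ι → Fin d → Space d) (a : ι → Space d) : Prop :=
  eLpNorm (boxSum N ω f a) p volume ≤ ENNReal.ofReal C * eLpNorm (boxSum N ω f 0) p volume

/-- The admissible slopes `c` in `ℝ^(d+1)`: `c > 2d/(d+1)`, or `d ≥ 9`, `c > 1` and the two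
inequalities hold with some weight `x ∈ [0, 1]`. -/
def Slope (d : ℕ) (c : ℝ) : Prop :=
  2 * (d : ℝ) / (d + 1) < c ∨ (9 ≤ d ∧ 1 < c ∧ ∃ x : ℝ, 0 ≤ x ∧ x ≤ 1 ∧
    0 < (d : ℝ) * (c ^ 3 - 4 * c + 2) + x * (c * (3 * c - 1 - c ^ 2)) ∧
    4 * c ^ 2 + 5 * c - 4 + x * (3 * c ^ 2 + 1) < (d : ℝ) * (c ^ 2 - 1) + x * (3 * c - 1 - c ^ 2))

/-- With `x = 0`: every `c` above the root `1.67513...` of `x³ - 4x + 2` is admissible for
`d ≥ 9`. -/
theorem slope_of_alpha {d : ℕ} (hd : 9 ≤ d) {c : ℝ} (hc1 : 1 < c) (hc : 0 < c ^ 3 - 4 * c + 2) :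
    Slope d c := by
  have hdr : (9 : ℝ) ≤ d := by exact_mod_cast hd
  have h1 : (1.675 : ℝ) < c := by
    by_contra h
    push Not at h
    nlinarith [mul_nonneg (sub_nonneg.2 hc1.le) (sub_nonneg.2 h)]
  refine Or.inr ⟨hd, hc1, 0, le_rfl, zero_le_one, by rw [zero_mul, add_zero]; positivity, ?_⟩
  nlinarith [mul_le_mul_of_nonneg_right hdr (by nlinarith : (0 : ℝ) ≤ c ^ 2 - 1)]

/-- The exponent of `N` lost at the exponent `p`, with `u = 1 - 1/p`:
`max 0 (min (d (1 - 1/c) u) (1 - u (d + c)/c))`; it is `0` for `p ≥ 1 + c/d`. -/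
noncomputable def lossExponent (d : ℕ) (c : ℝ) (p : ℝ≥0∞) : ℝ :=
  max 0 (min ((d : ℝ) * (1 - 1 / c) * (1 - 1 / p.toReal))
    (1 - (1 - 1 / p.toReal) * ((d : ℝ) + c) / c))

theorem slope_gt {d : ℕ} (hd : 2 ≤ d) {c : ℝ} (hc : Slope d c) : 1 < c := by
  rcases hc with h | h
  · refine lt_of_le_of_lt ?_ h
    have hd2 : (2 : ℝ) ≤ d := by exact_mod_cast hd
    rw [le_div_iff₀ (by linarith)]
    linarith
  · exact h.2.1

theorem loss_zero {d : ℕ} (hd : 2 ≤ d) {c : ℝ} (hc : 1 < c) {p : ℝ≥0∞}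
    (hp' : ENNReal.ofReal (1 + c / d) ≤ p) : lossExponent d c p = 0 := by
  have hd0 : (0 : ℝ) < d := by exact_mod_cast (by omega : 0 < d)
  have hc0 : 0 < c := by linarith
  unfold lossExponent
  apply max_eq_left
  apply min_le_of_right_le
  have hu : c / ((d : ℝ) + c) ≤ 1 - 1 / p.toReal := by
    rcases eq_or_ne p ∞ with ht | ht
    · have h0 : (1 : ℝ) - 1 / p.toReal = 1 := by rw [ht]; simp
      rw [h0, div_le_one (by positivity)]
      linarith
    · have h1 : 1 + c / (d : ℝ) ≤ p.toReal := (ENNReal.ofReal_le_iff_le_toReal ht).1 hp'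
      have h2 : 1 / p.toReal ≤ 1 / (1 + c / (d : ℝ)) := one_div_le_one_div_of_le (by positivity) h1
      have h3 : 1 / (1 + c / (d : ℝ)) = 1 - c / ((d : ℝ) + c) := by
        field_simp
        ring
      linarith
  have h4 : 1 ≤ (1 - 1 / p.toReal) * ((d : ℝ) + c) / c := by
    rw [le_div_iff₀ hc0]
    have h5 := mul_le_mul_of_nonneg_right hu (by positivity : (0 : ℝ) ≤ (d : ℝ) + c)
    rw [div_mul_cancel₀ _ (by positivity)] at h5
    linarith
  linarith

/-- The loss is at most `N ^ ((n-1)/n · (1 - 1/c))`, whatever the exponent `p`. -/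
theorem loss_le {d : ℕ} (hd : 2 ≤ d) {c : ℝ} (hc : 1 < c) (p : ℝ≥0∞) :
    lossExponent d c p ≤ (d : ℝ) / (d + 1) * (1 - 1 / c) := by
  have hd0 : (0 : ℝ) < d := by exact_mod_cast (by omega : 0 < d)
  have hc0 : 0 < c := by linarith
  have hc1 : 0 ≤ 1 - 1 / c := by
    have : 1 / c ≤ 1 := by rw [div_le_one hc0]; linarith
    linarith
  unfold lossExponent
  refine max_le (by positivity) ?_
  set u : ℝ := 1 - 1 / p.toReal with hu
  rcases le_total u (1 / ((d : ℝ) + 1)) with h | h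
  · refine min_le_of_left_le ?_
    calc (d : ℝ) * (1 - 1 / c) * u ≤ (d : ℝ) * (1 - 1 / c) * (1 / ((d : ℝ) + 1)) := by gcongr
      _ = (d : ℝ) / (d + 1) * (1 - 1 / c) := by ring
  · refine min_le_of_right_le ?_
    have h1 : 1 / ((d : ℝ) + 1) * (((d : ℝ) + c) / c) ≤ u * (((d : ℝ) + c) / c) := by gcongr
    have h2 : 1 - 1 / ((d : ℝ) + 1) * (((d : ℝ) + c) / c) = (d : ℝ) / (d + 1) * (1 - 1 / c) := by
      field_simp
      ring
    have h3 : u * ((d : ℝ) + c) / c = u * (((d : ℝ) + c) / c) := by ring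
    rw [h3]
    linarith

/-- **The Kakeya inequality in tube form for all translates, all `n = d + 1 ≥ 3`.**  For every
admissible slope `c`: no loss for `p ≥ 1 + c/(n-1)`, loss `N ^ lossExponent d c p` for all `p` in
`[1, ∞]`, in particular loss at most `N ^ ((n-1)/n · (1 - 1/c))` at every exponent. -/
theorem result (d : ℕ) (hd : 2 ≤ d) (c : ℝ) (hc : Slope d c) (σ κ : ℝ) (hσ : 0 < σ) (hσ1 : σ ≤ 1)
    (hκ : 0 < κ) :
    ∃ C : ℝ, 0 < C ∧ ∀ N : ℝ, 1 ≤ N → ∀ (ι : Type) [Fintype ι] (ω : ι → Vec d)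
      (f : ι → Fin d → Space d), Caps σ κ N ω f → ∀ (a : ι → Space d) (p : ℝ≥0∞), 1 ≤ p →
        (ENNReal.ofReal (1 + c / d) ≤ p → Ineq C N p ω f a) ∧
          Ineq (C * N ^ lossExponent d c p) N p ω f a ∧
          Ineq (C * N ^ ((d : ℝ) / (d + 1) * (1 - 1 / c))) N p ω f a := by
  have hc1 := slope_gt hd hc
  have hc0 : 0 < c := by linarith
  have hT : Pool.Agent.Y249.AC.TubeB d c := by
    rcases hc with h | h
    · exact Pool.Agent.Y249.AC.tubeB_wolff hd h
    · obtain ⟨h9, h1, x, hx0, hx1, hg, hk⟩ := h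
      exact Pool.Agent.Y249.AC.tubeB_mix h9 ⟨hx0, hx1, h1, hg, hk⟩
  obtain ⟨E, hE, hI⟩ := Pool.Agent.Y249.AC.INT (by omega) hc0 hT σ hσ hσ1
  obtain ⟨D, hD, hC⟩ := Pool.Agent.Y249.AC.CMP (d := d) (c := c) (by omega) hc0 κ E hκ hE
  refine ⟨D, by linarith, ?_⟩
  intro N hN ι _ ω f hcaps a p hp
  obtain ⟨hω, hsep, hcard, hf⟩ := hcaps
  have hN0 : 0 < N := by linarith
  have hne : Nonempty ι := by
    have h1 : 0 < κ * N ^ d := by positivity
    have h2 : (0 : ℝ) < (Fintype.card ι : ℝ) := by linarith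
    have h3 : 0 < Fintype.card ι := by exact_mod_cast h2
    exact Fintype.card_pos_iff.1 h3
  have key : eLpNorm (boxSum N ω f a) p volume ≤
      ENNReal.ofReal (D * N ^ lossExponent d c p) * eLpNorm (boxSum N ω f 0) p volume :=
    hC hN ω f hf a hcard (hI N hN ι ω f a hω hsep hf) p hp
  refine ⟨fun hp' => ?_, key, ?_⟩
  · rw [loss_zero hd hc1 hp', Real.rpow_zero, mul_one] at key
    exact key
  · refine key.trans (mul_le_mul' (ENNReal.ofReal_le_ofReal ?_) le_rfl)
    exact mul_le_mul_of_nonneg_left (Real.rpow_le_rpow_of_exponent_le hN (loss_le hd hc1 p))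
      (by linarith)

end Pool.Agent.Results.MP_ac5134_an.HybridRange
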