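import Pool.Agent.Y789.KM.All
import Pool.Agent.Y789.KM.Fin

set_option autoImplicit false

/-!
# The Kakeya inequality in tube form for almost all matchings of translates with directions

Work in `ℝ^n = ℝ^d × ℝ`, `n = d + 1 ≥ 3`, with its Euclidean norm (`Space d`), and let `P` be the
paraboloid `{(ω, |ω|²)}`, `|ω| ≤ 1`.  The box dual to the cap at `ω` is `box N (nor ω) f 0`: its long
side `N²` is in the direction of the unit normal `nor ω = (-2ω, 1)/√(1+4|ω|²)` and its other sides `N`
are in the directions of an arbitrary orthonormal frame `f` of the orthogonal complement.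

The translates are the places `b k` of an ARBITRARY finite list.  The inequality of Q1 holds, for all
`p` in `[1, ∞]`, with a constant without loss (with a logarithm for the `p` next to `n/(n-1)` if all
`p` are wanted at once), for all but a small proportion of the matchings of the boxes with the places:
of all the permutations, or already of the few affine ones.
-/

open MeasureTheory Set ENNReal

namespace Pool.Agent.Results.MP_ac5134_an.RandomMatchings

open Pool.Agent.H810R3.Tub

/-- The caps have centres `ω i` in the closed unit ball, `σ/N`-separated and at least `κ N^d` in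
number, and `f i` is an orthonormal frame of the orthogonal complement of the normal at `ω i`. -/
def Caps {d : ℕ} {ι : Type} [Fintype ι] (σ κ N : ℝ) (ω : ι → Vec d) (f : ι → Fin d → Space d) : Prop :=
  (∀ i, ‖ω i‖ ≤ 1) ∧ (∀ i j, i ≠ j → σ / N ≤ ‖ω i - ω j‖) ∧ κ * N ^ d ≤ (Fintype.card ι : ℝ) ∧
    ∀ i, Orthonormal ℝ (Fin.cons (nor (ω i)) (f i) : Fin (d + 1) → Space d)

/-- The sum of the indicators of the boxes of the caps with centres `a i`. -/
noncomputable def boxSum {d : ℕ} {ι : Type} [Fintype ι] (N : ℝ) (ω : ι → Vec d)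
    (f : ι → Fin d → Space d) (a : ι → Space d) (y : Space d) : ℝ :=
  ∑ i, (box N (nor (ω i)) (f i) (a i)).indicator (fun _ => (1 : ℝ)) y

/-- The inequality of Q1 with the constant `C` at the exponent `p`, for the boxes with centres `a i`. -/
def Ineq {d : ℕ} {ι : Type} [Fintype ι] (C N : ℝ) (p : ℝ≥0∞) (ω : ι → Vec d)
    (f : ι → Fin d → Space d) (a : ι → Space d) : Prop :=
  eLpNorm (boxSum N ω f a) p volume ≤ ENNReal.ofReal C * eLpNorm (boxSum N ω f 0) p volume

/-- The inequality of Q1 for all exponents at once: with the constant `C (1 + log #ι)` for all `p` in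
`[1, ∞]`, and with the constant `C`, without loss, for all `p` in `[1, n/(n-1) - ε]` and for all `p` in
`[n/(n-1) + ε, ∞]`. -/
def All {d : ℕ} {ι : Type} [Fintype ι] (ε C N : ℝ) (ω : ι → Vec d) (f : ι → Fin d → Space d)
    (a : ι → Space d) : Prop :=
  ∀ p : ℝ≥0∞, (1 ≤ p → Ineq (C * (1 + Real.log (Fintype.card ι))) N p ω f a) ∧
    (1 ≤ p → p ≤ ENNReal.ofReal (1 + 1 / d - ε) → Ineq C N p ω f a) ∧
    (ENNReal.ofReal (1 + 1 / d + ε) ≤ p → Ineq C N p ω f a)

/-- The random centres `a x i` are **pairwise nearly independent**: one of them is in a measurable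
set `U` with probability at most `A ν(U)`, and two of them are in `U` and in `V` with probability at
most `A ν(U) ν(V)`. -/
def NearlyIndependent {d : ℕ} {ι Ω : Type} [MeasurableSpace Ω] (P : Measure Ω)
    (ν : Measure (Space d)) (A : ℝ) (a : Ω → ι → Space d) : Prop :=
  (∀ i, Measurable (fun x => a x i)) ∧
  (∀ i (U : Set (Space d)), MeasurableSet U → P {x | a x i ∈ U} ≤ ENNReal.ofReal A * ν U) ∧
  (∀ i j, i ≠ j → ∀ U V : Set (Space d), MeasurableSet U → MeasurableSet V →
    P {x | a x i ∈ U ∧ a x j ∈ V} ≤ ENNReal.ofReal A * (ν U * ν V))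

/-- The family `π` of assignments `ι → κ` is **balanced**: each value is taken by `π γ i` for at
most `A #Γ / #κ` of the `γ`, and each pair of values by `(π γ i, π γ j)` for at most `A #Γ / #κ²`. -/
def Balanced {Γ ι κ : Type} (A : ℝ) (π : Γ → ι → κ) : Prop :=
  (∀ i k, (Nat.card {γ // π γ i = k} : ℝ) * Nat.card κ ≤ A * Nat.card Γ) ∧
  (∀ i j, i ≠ j → ∀ k l, (Nat.card {γ // π γ i = k ∧ π γ j = l} : ℝ) * (Nat.card κ) ^ 2 ≤
    A * Nat.card Γ)

/-- All members of `Γ` but a proportion at most `η` have the property `good`. -/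
def Most {Γ : Type} (η : ℝ) (good : Γ → Prop) : Prop :=
  (Nat.card {γ // ¬ good γ} : ℝ) ≤ η * Nat.card Γ

/-- **The Kakeya inequality in tube form for almost all matchings.** -/
theorem result (d : ℕ) (hd : 2 ≤ d) (σ κ : ℝ) (hσ : 0 < σ) (hσ1 : σ ≤ 1) (hκ : 0 < κ) :
    -- (1) the mean of the `p`-th moment, `1 ≤ p ≤ 2`, for all directions and all numbers of boxes
    (∀ (Ω : Type) [MeasurableSpace Ω] (P : Measure Ω) [IsProbabilityMeasure P]
      (ν : Measure (Space d)) [IsProbabilityMeasure ν] (A : ℝ), 1 ≤ A → ∀ (ι : Type) [Fintype ι]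
      (a : Ω → ι → Space d), NearlyIndependent P ν A a → ∀ (N : ℝ) (ω : ι → Vec d)
      (f : ι → Fin d → Space d) (p : ℝ), 1 ≤ p → p ≤ 2 →
      ∫⁻ x, eLpNorm (boxSum N ω f (a x)) (ENNReal.ofReal p) volume ^ p ∂P ≤
        ENNReal.ofReal (6 * A) * eLpNorm (boxSum N ω f 0) (ENNReal.ofReal p) volume ^ p) ∧
    -- (2) each exponent, without loss, for random centres and for balanced families of assignments
    (∃ C : ℝ, 0 < C ∧ ∀ A : ℝ, 1 ≤ A → ∀ N : ℝ, 1 ≤ N → ∀ (ι : Type) [Fintype ι] (ω : ι → Vec d)
      (f : ι → Fin d → Space d), Caps σ κ N ω f → ∀ η : ℝ, 0 < η → η ≤ 1 → ∀ p : ℝ≥0∞, 1 ≤ p →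
      (∀ (Ω : Type) [MeasurableSpace Ω] (P : Measure Ω) [IsProbabilityMeasure P]
        (ν : Measure (Space d)) [IsProbabilityMeasure ν] (a : Ω → ι → Space d),
        NearlyIndependent P ν A a →
        P {x | ¬ Ineq (C * A / η) N p ω f (a x)} ≤ ENNReal.ofReal η) ∧
      (∀ (Γ K : Type) [Finite Γ] [Finite K] (b : K → Space d) (π : Γ → ι → K), Balanced A π →
        Most η (fun γ => Ineq (C * A / η) N p ω f (fun i => b (π γ i))))) ∧
    (∀ ε : ℝ, 0 < ε → ∃ C : ℝ, 0 < C ∧ ∀ N : ℝ, 1 ≤ N → ∀ (ι : Type) [Fintype ι] (ω : ι → Vec d)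
      (f : ι → Fin d → Space d), Caps σ κ N ω f →
      (∀ η : ℝ, 0 < η → η ≤ 1 →
        -- (3) all exponents at once, for random centres and for balanced families of assignments
        (∀ A : ℝ, 1 ≤ A →
          (∀ (Ω : Type) [MeasurableSpace Ω] (P : Measure Ω) [IsProbabilityMeasure P]
            (ν : Measure (Space d)) [IsProbabilityMeasure ν] (a : Ω → ι → Space d),
            NearlyIndependent P ν A a →
            P {x | ¬ All ε (C * A / η) N ω f (a x)} ≤ ENNReal.ofReal η) ∧
          (∀ (Γ K : Type) [Finite Γ] [Finite K] (b : K → Space d) (π : Γ → ι → K),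
            Balanced A π → Most η (fun γ => All ε (C * A / η) N ω f (fun i => b (π γ i))))) ∧
        -- (4) arbitrary centres `b`: all permutations `τ` of the boxes
        (∀ b : ι → Space d,
          Most η (fun τ : Equiv.Perm ι => All ε (C / η) N ω f (fun i => b (τ i)))) ∧
        -- (5) the boxes are indexed by (some) elements of a finite field, the centres by all its
        -- elements: the affine maps `z ↦ u z + v`
        (∀ (F : Type) [Field F] [Finite F] (e : ι → F), Function.Injective e →
          ∀ b : F → Space d,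
          Most η (fun uv : F × F => All ε (C / η) N ω f (fun i => b (uv.1 * e i + uv.2))))) ∧
      -- (6) in particular arbitrary centres can be distributed anew among the boxes
      (∀ b : ι → Space d, ∃ τ : Equiv.Perm ι, All ε C N ω f (fun i => b (τ i)))) := by
  classical
  have hP : ∀ {Ω ι : Type} [MeasurableSpace Ω] {P : Measure Ω} {ν : Measure (Space d)} {A : ℝ}
      {a : Ω → ι → Space d}, NearlyIndependent P ν A a →
      Y789.KM.Pairwise' P ν (ENNReal.ofReal A) a := fun h => ⟨h.1, h.2.1, h.2.2⟩
  -- from balanced families to random centres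
  have hB : ∀ {Γ ι K : Type} [Fintype Γ] [Nonempty Γ] [Fintype K] [Nonempty K]
      [MeasurableSpace Γ] [MeasurableSingletonClass Γ] [MeasurableSpace K]
      [MeasurableSingletonClass K] {A : ℝ}
      {π : Γ → ι → K}, 0 ≤ A → Balanced A π → ∀ b : K → Space d,
      NearlyIndependent (Y789.KM.unif Γ) ((Y789.KM.unif K).map b) A (fun γ i => b (π γ i)) := by
    intro Γ ι K _ _ _ _ _ _ _ _ A π hA h b
    have h1 := Y789.KM.pairwise_of_count hA π h.1 h.2
    have h2 := h1.map (b := b) (measurable_of_finite b)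
    exact ⟨h2.meas, h2.one, h2.two⟩
  -- from random centres to balanced families, for any property
  have hM : ∀ {ι : Type} [Nonempty ι] {A η : ℝ} (_ : 0 ≤ A) (_ : 0 < η)
      (good : (ι → Space d) → Prop),
      (∀ (Ω : Type) [MeasurableSpace Ω] (P : Measure Ω) [IsProbabilityMeasure P]
        (ν : Measure (Space d)) [IsProbabilityMeasure ν] (a : Ω → ι → Space d),
        NearlyIndependent P ν A a → P {x | ¬ good (a x)} ≤ ENNReal.ofReal η) →
      ∀ (Γ K : Type) [Finite Γ] [Finite K] (b : K → Space d) (π : Γ → ι → K), Balanced A π →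
        Most η (fun γ => good (fun i => b (π γ i))) := by
    intro ι _ A η hA hη good H Γ K _ _ b π hπ
    rcases isEmpty_or_nonempty Γ with hΓ | hΓ
    · unfold Most
      simp
    · haveI : Nonempty K := ⟨π (Classical.arbitrary Γ) (Classical.arbitrary ι)⟩
      let _ : Fintype Γ := Fintype.ofFinite Γ
      let _ : Fintype K := Fintype.ofFinite K
      let _ : MeasurableSpace Γ := ⊤
      let _ : MeasurableSpace K := ⊤
      have _ : MeasurableSingletonClass Γ := ⟨fun _ => trivial⟩
      have _ : MeasurableSingletonClass K := ⟨fun _ => trivial⟩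
      have _ : IsProbabilityMeasure ((Y789.KM.unif K).map b) :=
        Measure.isProbabilityMeasure_map measurable_from_top.aemeasurable
      have h1 := H Γ (Y789.KM.unif Γ) ((Y789.KM.unif K).map b) (fun γ i => b (π γ i))
        (hB hA hπ b)
      exact Y789.KM.card_bad hη.le h1
  have hne : ∀ {ι : Type} [Fintype ι] {N : ℝ} {ω : ι → Vec d} {f : ι → Fin d → Space d}, 1 ≤ N →
      Caps σ κ N ω f → Nonempty ι := by
    intro ι _ N ω f hN hc
    have hN0 : 0 < N := by linarith
    have hc0 : (0 : ℝ) < (Fintype.card ι : ℝ) := lt_of_lt_of_le (by positivity) hc.2.2.1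
    rw [← Fintype.card_pos_iff]
    exact_mod_cast hc0
  refine ⟨?_, ?_, ?_⟩
  · intro Ω _ P _ ν _ A hA ι _ a h N ω f p hp1 hp2
    have h1 := Y789.KM.mean P ν hA (hP h) N ω f hp1 hp2
    have e : ∀ a : ι → Space d, eLpNorm (boxSum N ω f a) (ENNReal.ofReal p) volume ^ p =
        ∫⁻ y, Fb N ω f a y ^ p := fun a => Y789.KM.eLp N ω f a hp1
    simp only [e]
    exact h1
  · obtain ⟨C, hC, H⟩ := Y789.KM.each (d := d) hd hσ hσ1 hκ
    refine ⟨C, by linarith, ?_⟩
    intro A hA N hN ι _ ω f hc η hη hη1 p hp
    have _ := hne hN hc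
    have h1 : ∀ (Ω : Type) [MeasurableSpace Ω] (P : Measure Ω) [IsProbabilityMeasure P]
        (ν : Measure (Space d)) [IsProbabilityMeasure ν] (a : Ω → ι → Space d),
        NearlyIndependent P ν A a →
        P {x | ¬ Ineq (C * A / η) N p ω f (a x)} ≤ ENNReal.ofReal η := by
      intro Ω _ P _ ν _ a h
      exact H Ω P ν A hA N hN ι a (hP h) ω f hc.1 hc.2.1 hc.2.2.1 hc.2.2.2 η hη hη1 p hp
    exact ⟨h1, hM (by linarith) hη _ h1⟩
  · intro ε hε
    obtain ⟨C, hC, H⟩ := Y789.KM.most3 (d := d) hd hε hσ hσ1 hκ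
    refine ⟨4 * C, by linarith, ?_⟩
    intro N hN ι _ ω f hc
    have _ := hne hN hc
    have hlog : 0 ≤ Real.log (Fintype.card ι : ℝ) :=
      Real.log_nonneg (by exact_mod_cast Nat.succ_le_of_lt (Fintype.card_pos (α := ι)))
    -- a larger constant
    have hmono : ∀ {c c' : ℝ} {a : ι → Space d}, c ≤ c' → All ε c N ω f a → All ε c' N ω f a := by
      intro c c' a hcc h p
      obtain ⟨h1, h2, h3⟩ := h p
      refine ⟨fun hp => (h1 hp).trans (mul_le_mul' (ENNReal.ofReal_le_ofReal ?_) le_rfl),
        fun hp hp' => (h2 hp hp').trans (mul_le_mul' (ENNReal.ofReal_le_ofReal hcc) le_rfl),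
        fun hp => (h3 hp).trans (mul_le_mul' (ENNReal.ofReal_le_ofReal hcc) le_rfl)⟩
      exact mul_le_mul_of_nonneg_right hcc (by linarith)
    have hmono2 : ∀ {Γ : Type} [Finite Γ] {η : ℝ} {g g' : Γ → Prop}, (∀ γ, g γ → g' γ) →
        Most η g → Most η g' := by
      intro Γ _ η g g' hg h
      refine le_trans ?_ h
      exact_mod_cast Nat.card_le_card_of_injective
        (fun x : {γ // ¬ g' γ} => (⟨x.1, fun hh => x.2 (hg _ hh)⟩ : {γ // ¬ g γ}))
        (fun x y hxy => Subtype.ext (by simpa using hxy))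
    have base : ∀ A : ℝ, 1 ≤ A → ∀ η : ℝ, 0 < η → η ≤ 1 →
        (∀ (Ω : Type) [MeasurableSpace Ω] (P : Measure Ω) [IsProbabilityMeasure P]
          (ν : Measure (Space d)) [IsProbabilityMeasure ν] (a : Ω → ι → Space d),
          NearlyIndependent P ν A a →
          P {x | ¬ All ε (C * A / η) N ω f (a x)} ≤ ENNReal.ofReal η) := by
      intro A hA η hη hη1 Ω _ P _ ν _ a h
      exact H Ω P ν A hA N hN ι a (hP h) ω f hc.1 hc.2.1 hc.2.2.1 hc.2.2.2 η hη hη1
    have perm : ∀ η : ℝ, 0 < η → η ≤ 1 → ∀ b : ι → Space d,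
        Most η (fun τ : Equiv.Perm ι => All ε (C * 2 / η) N ω f (fun i => b (τ i))) := by
      intro η hη hη1 b
      let _ : MeasurableSpace ι := ⊤
      let _ : MeasurableSpace (Equiv.Perm ι) := ⊤
      have _ : MeasurableSingletonClass ι := ⟨fun _ => trivial⟩
      have _ : MeasurableSingletonClass (Equiv.Perm ι) := ⟨fun _ => trivial⟩
      have _ : IsProbabilityMeasure ((Y789.KM.unif ι).map b) :=
        Measure.isProbabilityMeasure_map measurable_from_top.aemeasurable
      have h2 := (Y789.KM.perm_pairwise (ι := ι)).map (b := b) measurable_from_top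
      have h3 := base 2 (by norm_num) η hη hη1 (Equiv.Perm ι) (Y789.KM.unif (Equiv.Perm ι))
        ((Y789.KM.unif ι).map b) (fun τ i => b (τ i)) ⟨h2.meas, h2.one, h2.two⟩
      exact Y789.KM.card_bad hη.le h3
    refine ⟨?_, ?_⟩
    · intro η hη hη1
      refine ⟨?_, ?_, ?_⟩
      · intro A hA
        have hle : C * A / η ≤ 4 * C * A / η := by
          rw [div_le_div_iff_of_pos_right hη]
          nlinarith
        have h1 := base A hA η hη hη1
        refine ⟨?_, ?_⟩
        · intro Ω _ P _ ν _ a h
          refine le_trans (measure_mono ?_) (h1 Ω P ν a h)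
          intro x hx hcon
          exact hx (hmono hle hcon)
        · intro Γ K _ _ b π hπ
          exact hmono2 (fun γ => hmono hle)
            (hM (by linarith) hη (fun a => All ε (C * A / η) N ω f a) h1 Γ K b π hπ)
      · intro b
        refine hmono2 (fun γ => hmono ?_) (perm η hη hη1 b)
        rw [div_le_div_iff_of_pos_right hη]
        linarith
      · intro F _ _ e he b
        let _ : Fintype F := Fintype.ofFinite F
        let _ : MeasurableSpace F := ⊤
        have _ : MeasurableSingletonClass F := ⟨fun _ => trivial⟩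
        have _ : IsProbabilityMeasure ((Y789.KM.unif F).map b) :=
          Measure.isProbabilityMeasure_map measurable_from_top.aemeasurable
        have h2 := (Y789.KM.affine_pairwise e he).map (b := b) measurable_from_top
        have h3 := base 1 le_rfl η hη hη1 (F × F) (Y789.KM.unif (F × F))
          ((Y789.KM.unif F).map b) (fun z i => b (z.1 * e i + z.2)) ⟨h2.meas, h2.one, h2.two⟩
        refine hmono2 (fun γ => hmono ?_) (Y789.KM.card_bad hη.le h3)
        rw [div_le_div_iff_of_pos_right hη]
        linarith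
    · intro b
      have h1 := perm (1 / 2) (by norm_num) (by norm_num) b
      by_contra hcon
      push Not at hcon
      unfold Most at h1
      have e : Nat.card {τ : Equiv.Perm ι // ¬ All ε (C * 2 / (1 / 2)) N ω f (fun i => b (τ i))} =
          Nat.card (Equiv.Perm ι) := by
        refine Nat.card_congr (Equiv.subtypeUnivEquiv ?_)
        intro τ h
        refine hcon τ (hmono (le_of_eq ?_) h)
        ring
      rw [e] at h1
      have : (0 : ℝ) < Nat.card (Equiv.Perm ι) := by
        exact_mod_cast Nat.card_pos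
      linarith

end Pool.Agent.Results.MP_ac5134_an.RandomMatchings
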