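import Pool.Agent.Y789.KM.Vol

set_option autoImplicit false

/-!
# The matchings which are bad for the Kakeya inequality in tube form are exponentially rare

Work in `ℝ^n = ℝ^d × ℝ`, `n = d + 1 ≥ 3`, with its Euclidean norm (`Space d`), and let `P` be the
paraboloid `{(ω, |ω|²)}`, `|ω| ≤ 1`.  The box dual to the cap at `ω` is `box N (nor ω) f 0`: its long
side `N²` is in the direction of the unit normal `nor ω = (-2ω, 1)/√(1+4|ω|²)` and its other sides `N`
are in the directions of an arbitrary orthonormal frame `f` of the orthogonal complement.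

Let `b i` be ARBITRARY places, as many as there are boxes, and let the boxes be partitioned into
classes (for instance one class only, or the classes of the directions in the cubes of side `N^(-δ)`).
Among the matchings of the boxes with the places which only permute the places within the classes,
those for which the inequality of Q1 fails are exponentially rare if the classes are large; a factor
which is a power of the number of classes is lost.  The volume of the union of the boxes is then a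
fixed proportion of the sum of their volumes.
-/

open MeasureTheory Set ENNReal

namespace Pool.Agent.Results.MP_ac5134_an.RareMatchings

open Pool.Agent.H810R3.Tub

/-- The caps have centres `ω i` in the closed unit ball, `σ/N`-separated and at least `κ N^d` in
number, and `f i` is an orthonormal frame of the orthogonal complement of the normal at `ω i`. -/
def Caps {d : ℕ} {ι : Type} [Fintype ι] (σ κ N : ℝ) (ω : ι → Vec d) (f : ι → Fin d → Space d) : Prop :=
  (∀ i, ‖ω i‖ ≤ 1) ∧ (∀ i j, i ≠ j → σ / N ≤ ‖ω i - ω j‖) ∧ κ * N ^ d ≤ (Fintype.card ι : ℝ) ∧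
    ∀ i, Orthonormal ℝ (Fin.cons (nor (ω i)) (f i) : Fin (d + 1) → Space d)

/-- The sum of the indicators of the boxes of the caps with centres `a i`. -/
noncomputable def boxSum {d : ℕ} {ι : Type} [Fintype ι] (N : ℝ) (ω : ι → Vec d)
    (f : ι → Fin d → Space d) (a : ι → Space d) (y : Space d) : ℝ :=
  ∑ i, (box N (nor (ω i)) (f i) (a i)).indicator (fun _ => (1 : ℝ)) y

/-- The inequality of Q1 with the constant `C` at the exponent `p`, for the boxes with centres `a i`. -/
def Ineq {d : ℕ} {ι : Type} [Fintype ι] (C N : ℝ) (p : ℝ≥0∞) (ω : ι → Vec d)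
    (f : ι → Fin d → Space d) (a : ι → Space d) : Prop :=
  eLpNorm (boxSum N ω f a) p volume ≤ ENNReal.ofReal C * eLpNorm (boxSum N ω f 0) p volume

/-- The property `good` fails for a proportion at most `∑_c exp (-m_c^δ/128)` of the permutations of
`ι` preserving the classes `{i | g i = c}`, `m_c` being the number of elements of the class. -/
def Rare {ι K : Type} [Fintype K] (g : ι → K) (δ : ℝ) (good : Equiv.Perm ι → Prop) : Prop :=
  (Nat.card {τ : Equiv.Perm ι // (∀ i, g (τ i) = g i) ∧ ¬ good τ} : ℝ) ≤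
    Nat.card {τ : Equiv.Perm ι // ∀ i, g (τ i) = g i} *
      ∑ c, Real.exp (-((Nat.card {i // g i = c} : ℝ) ^ δ / 128))

/-- (1) One exponent `1 ≤ p ≤ 2` (of interest for `p < 3/2`), for all directions and all numbers of
boxes: the constant `13 k^(p-1)` for the `p`-th powers, `k` the number of classes. -/
def OneExponent (d : ℕ) : Prop :=
  ∀ (ι K : Type) [Fintype ι] [Nonempty ι] [Fintype K] (g : ι → K), Function.Surjective g →
    ∀ (N : ℝ) (ω : ι → Vec d) (f : ι → Fin d → Space d),
    1 ≤ N → (∀ i, Orthonormal ℝ (Fin.cons (nor (ω i)) (f i) : Fin (d + 1) → Space d)) →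
    ∀ (b : ι → Space d) (p : ℝ), 1 ≤ p → p ≤ 2 →
    Rare g (3 - 2 * p) (fun τ => eLpNorm (boxSum N ω f (fun i => b (τ i))) (ENNReal.ofReal p)
      volume ^ p ≤ ENNReal.ofReal (13 * (Fintype.card K : ℝ) ^ (p - 1)) *
        eLpNorm (boxSum N ω f 0) (ENNReal.ofReal p) volume ^ p)

/-- (2) All exponents at once: loss `k^(1/(n-1)) N^((n-1) ε)`, and `k^(1/(n-1))` only in
`[1, n/(n-1) - ε]`. -/
def AllExponents (d : ℕ) (σ κ ε C : ℝ) : Prop :=
  ∀ N : ℝ, 1 ≤ N → ∀ (ι K : Type) [Fintype ι] [Fintype K] (g : ι → K), Function.Surjective g →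
    ∀ (ω : ι → Vec d) (f : ι → Fin d → Space d), Caps σ κ N ω f →
    ∀ b : ι → Space d, Rare g (1 - 2 / d + 2 * ε) (fun τ => ∀ p : ℝ≥0∞, 1 ≤ p →
      Ineq (C * (Fintype.card K : ℝ) ^ (1 / (d : ℝ)) * N ^ (d * ε)) N p ω f
        (fun i => b (τ i)) ∧
      (p ≤ ENNReal.ofReal (1 + 1 / d - ε) →
        Ineq (C * (Fintype.card K : ℝ) ^ (1 / (d : ℝ))) N p ω f (fun i => b (τ i))))

/-- (3) All `p ≥ n/(n-1) + ε` at once, loss `k^(1/(n-1) + ε)` only (of interest for `n ≥ 4`). -/
def LargeExponents (d : ℕ) (σ κ ε C : ℝ) : Prop :=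
  ∀ N : ℝ, 1 ≤ N → ∀ (ι K : Type) [Fintype ι] [Fintype K] (g : ι → K), Function.Surjective g →
    ∀ (ω : ι → Vec d) (f : ι → Fin d → Space d), Caps σ κ N ω f →
    ∀ b : ι → Space d, Rare g (1 - 2 / d - 2 * ε) (fun τ => ∀ p : ℝ≥0∞,
      ENNReal.ofReal (1 + 1 / d + ε) ≤ p →
      Ineq (C * (Fintype.card K : ℝ) ^ (1 / (d : ℝ) + ε)) N p ω f (fun i => b (τ i)))

/-- (4) The volume form, without loss: the volume of the union of the boxes is at least `c/k` times
the sum of their volumes. -/
def VolumeForm (d : ℕ) (σ κ θ c : ℝ) : Prop :=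
  ∀ N : ℝ, 1 ≤ N → ∀ (ι K : Type) [Fintype ι] [Fintype K] (g : ι → K), Function.Surjective g →
    ∀ (ω : ι → Vec d) (f : ι → Fin d → Space d), Caps σ κ N ω f →
    ∀ b : ι → Space d, Rare g (1 - 2 * θ) (fun τ =>
      ENNReal.ofReal (c / Fintype.card K) * ∑ i, volume (box N (nor (ω i)) (f i) (b (τ i))) ≤
        volume (⋃ i, box N (nor (ω i)) (f i) (b (τ i))))

/-- **The bad matchings are exponentially rare.** -/
theorem result (d : ℕ) (hd : 2 ≤ d) :
    OneExponent d ∧
    (∀ σ κ : ℝ, 0 < σ → σ ≤ 1 → 0 < κ →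
      (∀ ε : ℝ, 0 < ε → ε ≤ 1 / (2 * d) → ∃ C : ℝ, 0 < C ∧ AllExponents d σ κ ε C) ∧
      (∀ ε : ℝ, 0 < ε → ε ≤ 1 / 2 → ∃ C : ℝ, 0 < C ∧ LargeExponents d σ κ ε C) ∧
      (∀ θ : ℝ, 0 < θ → θ < 1 / d → ∃ c : ℝ, 0 < c ∧ VolumeForm d σ κ θ c)) := by
  classical
  have hd2 : (2 : ℝ) ≤ d := by exact_mod_cast hd
  have hd0 : (0 : ℝ) < d := by linarith
  have h12 : 1 / (d : ℝ) ≤ 1 / 2 := one_div_le_one_div_of_le (by norm_num) hd2
  have h10 : 0 < 1 / (d : ℝ) := by positivity
  -- a weaker property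
  have hmono : ∀ {ι K : Type} [Fintype ι] [Fintype K] {g₀ : ι → K} {δ δ' : ℝ}
      {g g' : Equiv.Perm ι → Prop}, δ = δ' → (∀ τ, g τ → g' τ) → Rare g₀ δ g → Rare g₀ δ' g' := by
    intro ι K _ _ g₀ δ δ' g g' hδ hg h
    rw [← hδ]
    refine le_trans ?_ h
    exact_mod_cast Nat.card_le_card_of_injective
      (fun x : {τ : Equiv.Perm ι // (∀ i, g₀ (τ i) = g₀ i) ∧ ¬ g' τ} =>
        (⟨x.1, x.2.1, fun hh => x.2.2 (hg _ hh)⟩ :
          {τ : Equiv.Perm ι // (∀ i, g₀ (τ i) = g₀ i) ∧ ¬ g τ}))
      (fun x y hxy => Subtype.ext (by simpa using hxy))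
  have hne : ∀ {ι : Type} [Fintype ι] {σ κ N : ℝ} {ω : ι → Vec d} {f : ι → Fin d → Space d},
      1 ≤ N → 0 < κ → Caps σ κ N ω f → Nonempty ι := by
    intro ι _ σ κ N ω f hN hκ hc
    have hN0 : 0 < N := by linarith
    have hc0 : (0 : ℝ) < (Fintype.card ι : ℝ) := lt_of_lt_of_le (by positivity) hc.2.2.1
    rw [← Fintype.card_pos_iff]
    exact_mod_cast hc0
  refine ⟨?_, ?_⟩
  · intro ι K _ _ _ g hg N ω f hN hf b p hp1 hp2
    have _ : Nonempty K := ⟨g (Classical.arbitrary ι)⟩
    have h1 := Y789.KM.local_conc g hg hN hf b hp1 hp2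
    have e : ∀ a : ι → Space d, eLpNorm (boxSum N ω f a) (ENNReal.ofReal p) volume ^ p =
        ∫⁻ y, Fb N ω f a y ^ p := fun a => Y789.KM.eLp N ω f a hp1
    refine hmono rfl ?_ h1
    intro τ h
    rw [e, e]
    exact h
  · intro σ κ hσ hσ1 hκ
    refine ⟨?_, ?_, ?_⟩
    · intro ε hε hε1
      set θ : ℝ := 1 / d - ε with hθ
      have hε2 : 1 / (2 * (d : ℝ)) = 1 / d / 2 := by field_simp
      have hθ0 : 0 < θ := by
        rw [hε2] at hε1
        linarith
      have hθd : d * θ = 1 - d * ε := by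
        rw [hθ]
        field_simp
      have hdε : 0 < d * ε := by positivity
      obtain ⟨E, hE, H⟩ := Y789.KM.low (d := d) (by omega) hθ0.le (by linarith) hσ hσ1
      have hw0 : 0 < wv d := wv_pos d
      set C : ℝ := max (13 * E) (13 * E * 2 ^ (d + 1) / (wv d * κ ^ θ)) with hC
      have hC1 : 13 * E ≤ C := le_max_left _ _
      have hC2 : 13 * E * 2 ^ (d + 1) / (wv d * κ ^ θ) ≤ C := le_max_right _ _
      have hC0 : 0 < C := by linarith
      refine ⟨C, hC0, ?_⟩
      intro N hN ι K _ _ g hg ω f hc b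
      have hN0 : 0 < N := by linarith
      have _ := hne hN hκ hc
      have _ : Nonempty K := ⟨g (Classical.arbitrary ι)⟩
      obtain ⟨hω, hsep, hcard, hf⟩ := hc
      set m : ℝ := (Fintype.card ι : ℝ) with hm
      have hm0 : 0 < m := lt_of_lt_of_le (by positivity) hcard
      set k : ℝ := (Fintype.card K : ℝ) with hk
      have hk1 : 1 ≤ k := by
        rw [hk]
        exact_mod_cast Nat.succ_le_of_lt (Fintype.card_pos (α := K))
      have hkθ : k ^ (1 + θ - 1) ≤ k ^ (1 / (d : ℝ)) :=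
        Real.rpow_le_rpow_of_exponent_le hk1 (by linarith)
      set k' : ℝ := k ^ (1 / (d : ℝ)) with hk'
      have hk'1 : 1 ≤ k' := Real.one_le_rpow hk1 h10.le
      have hk'0 : 0 < k' := by linarith
      have hNd : 1 ≤ N ^ (d * ε) := Real.one_le_rpow hN hdε.le
      have hCk : C ≤ C * k' := le_mul_of_one_le_right hC0.le hk'1
      have hCN : C * k' ≤ C * k' * N ^ (d * ε) := le_mul_of_one_le_right (by positivity) hNd
      have h1 := Y789.KM.local_conc g hg hN hf b (q := 1 + θ) (by linarith) (by linarith)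
      refine hmono (by rw [hθ]; ring) ?_ h1
      intro τ hτ
      set a : ι → Space d := fun i => b (τ i) with ha
      have hlow := H N hN ι ω f hω hsep hf
      have hτ2 : ∫⁻ y, Fb N ω f a y ^ (1 + θ) ≤
          ENNReal.ofReal (13 * E * k') * ∫⁻ y, Fb N ω f 0 y := by
        refine hτ.trans ((mul_le_mul' le_rfl hlow).trans ?_)
        rw [← mul_assoc, ← ENNReal.ofReal_mul (by positivity)]
        refine mul_le_mul' (ENNReal.ofReal_le_ofReal ?_) le_rfl
        calc 13 * k ^ (1 + θ - 1) * E ≤ 13 * k' * E := by gcongr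
          _ = 13 * E * k' := by ring
      have hC1' : 13 * E * k' ≤ C * k' := mul_le_mul_of_nonneg_right hC1 hk'0.le
      -- the low range
      have hlo : ∀ p : ℝ≥0∞, 1 ≤ p → p ≤ ENNReal.ofReal (1 + θ) → Ineq (C * k') N p ω f a := by
        intro p hp1 hp2
        have hpt : p ≠ ∞ := ne_top_of_le_ne_top ENNReal.ofReal_ne_top hp2
        have hpr : p = ENNReal.ofReal p.toReal := (ENNReal.ofReal_toReal hpt).symm
        have hr1 : 1 ≤ p.toReal := by
          have := ENNReal.toReal_mono hpt hp1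
          simpa using this
        have hr2 : p.toReal ≤ 1 + θ := by
          rw [hpr] at hp2
          rwa [ENNReal.ofReal_le_ofReal_iff (by linarith)] at hp2
        have h2 : ∫⁻ y, Fb N ω f a y ^ p.toReal ≤
            ENNReal.ofReal (C * k') * ∫⁻ y, Fb N ω f 0 y ^ p.toReal := by
          calc ∫⁻ y, Fb N ω f a y ^ p.toReal ≤ ∫⁻ y, Fb N ω f a y ^ (1 + θ) :=
                Y789.KM.Fb_pow_mono N ω f a (by linarith) hr2
            _ ≤ ENNReal.ofReal (13 * E * k') * ∫⁻ y, Fb N ω f 0 y := hτ2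
            _ = ENNReal.ofReal (13 * E * k') * ∫⁻ y, Fb N ω f 0 y ^ (1 : ℝ) := by
                simp only [ENNReal.rpow_one]
            _ ≤ _ := mul_le_mul' (ENNReal.ofReal_le_ofReal hC1')
                (Y789.KM.Fb_pow_mono N ω f 0 one_pos hr1)
        have h3 := Y789.KM.conv_p hr1 (by linarith) h2
        rw [← hpr] at h3
        exact h3
      -- the other exponents
      have hhi : ∀ p : ℝ≥0∞, ENNReal.ofReal (1 + θ) ≤ p →
          Ineq (C * k' * N ^ (d * ε)) N p ω f a := by
        intro p hp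
        have hD1 : 1 ≤ C * k' * N ^ (d * ε) := by linarith
        rw [Fb_int hN hf, ← ENNReal.ofReal_mul (by positivity)] at hτ2
        refine Y789.KM.large d hN (q := 1 + θ) (Q := 13 * E * k' * (m * N ^ (d + 2)))
          (by linarith) (by positivity) hD1 ω f hf a hτ2 ?_ p hp
        have h3 : C * k' * N ^ (d * ε) ≤ (C * k' * N ^ (d * ε)) ^ (1 + θ) := by
          conv_lhs => rw [← Real.rpow_one (C * k' * N ^ (d * ε))]
          exact Real.rpow_le_rpow_of_exponent_le hD1 (by linarith)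
        have h4 : κ ^ θ * N ^ (d * θ) ≤ m ^ θ := by
          have h5 : (κ * N ^ d) ^ θ ≤ m ^ θ := Real.rpow_le_rpow (by positivity) hcard hθ0.le
          rwa [Real.mul_rpow hκ.le (by positivity), ← Real.rpow_natCast, ← Real.rpow_mul hN0.le]
            at h5
        have h6 : N ^ (d * ε) * N ^ (d * θ) = N := by
          rw [← Real.rpow_add hN0, hθd, show d * ε + (1 - d * ε) = 1 by ring, Real.rpow_one]
        have h7 : 13 * E * 2 ^ (d + 1) ≤ C * (wv d * κ ^ θ) := by
          rwa [div_le_iff₀ (by positivity)] at hC2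
        have h8 : m ^ (1 + θ) = m * m ^ θ := by rw [Real.rpow_add hm0, Real.rpow_one]
        calc 13 * E * k' * (m * N ^ (d + 2)) =
              (13 * E * 2 ^ (d + 1)) * k' * m * ((N / 2) ^ (d + 1)) * N := by
              rw [div_pow]
              field_simp
              ring
          _ ≤ (C * (wv d * κ ^ θ)) * k' * m * ((N / 2) ^ (d + 1)) * N := by gcongr
          _ = (C * (wv d * κ ^ θ)) * k' * m * ((N / 2) ^ (d + 1)) *
                (N ^ (d * ε) * N ^ (d * θ)) := by
              rw [h6]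
          _ = (C * k' * N ^ (d * ε)) *
                (m * (κ ^ θ * N ^ (d * θ)) * ((N / 2) ^ (d + 1) * wv d)) := by
              ring
          _ ≤ (C * k' * N ^ (d * ε)) * (m * m ^ θ * ((N / 2) ^ (d + 1) * wv d)) := by gcongr
          _ ≤ (C * k' * N ^ (d * ε)) ^ (1 + θ) * (m * m ^ θ * ((N / 2) ^ (d + 1) * wv d)) := by
              gcongr
          _ = _ := by rw [h8]
      have hup : ∀ p : ℝ≥0∞, Ineq (C * k') N p ω f a → Ineq (C * k' * N ^ (d * ε)) N p ω f a :=
        fun p h => h.trans (mul_le_mul' (ENNReal.ofReal_le_ofReal hCN) le_rfl)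
      intro p hp1
      have e : 1 + 1 / (d : ℝ) - ε = 1 + θ := by rw [hθ]; ring
      rw [e]
      refine ⟨?_, hlo p hp1⟩
      rcases le_total p (ENNReal.ofReal (1 + θ)) with hp | hp
      · exact hup p (hlo p hp1 hp)
      · exact hhi p hp
    · intro ε hε hε1
      have e0 : ((d : ℝ) + 1) / d = 1 + 1 / d := by field_simp
      obtain ⟨C, hC, H⟩ := Y789.KM.big (d := d) (q := 1 + 1 / d + ε) (by omega)
        (by rw [e0]; linarith) hσ hσ1 hκ
      refine ⟨C * 13, by linarith, ?_⟩
      intro N hN ι K _ _ g hg ω f hc b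
      have _ := hne hN hκ hc
      have _ : Nonempty K := ⟨g (Classical.arbitrary ι)⟩
      obtain ⟨hω, hsep, hcard, hf⟩ := hc
      have hk1 : 1 ≤ (Fintype.card K : ℝ) := by
        exact_mod_cast Nat.succ_le_of_lt (Fintype.card_pos (α := K))
      have h1 := Y789.KM.local_conc g hg hN hf b (q := 1 + 1 / d + ε) (by linarith) (by linarith)
      refine hmono (by ring) ?_ h1
      intro τ hτ p hp
      have e1 : (1 : ℝ) + 1 / d + ε - 1 = 1 / d + ε := by ring
      rw [e1] at hτ
      have hk2 : 1 ≤ (Fintype.card K : ℝ) ^ (1 / (d : ℝ) + ε) :=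
        Real.one_le_rpow hk1 (by linarith)
      have h2 := H N hN ι ω f hω hsep hcard hf (13 * (Fintype.card K : ℝ) ^ (1 / (d : ℝ) + ε))
        (by linarith) (fun i => b (τ i)) hτ p hp
      rw [← mul_assoc] at h2
      exact h2
    · intro θ hθ hθ1
      rw [lt_div_iff₀ hd0] at hθ1
      obtain ⟨C, hC, H⟩ := Y789.KM.vol_form (d := d) (by omega) hθ (by linarith) hσ hσ1
      refine ⟨C, hC, ?_⟩
      intro N hN ι K _ _ g hg ω f hc b
      have _ := hne hN hκ hc
      obtain ⟨hω, hsep, hcard, hf⟩ := hc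
      exact H N hN ι K g hg ω f hω hsep hf b

end Pool.Agent.Results.MP_ac5134_an.RareMatchings
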